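import Mathlib

set_option autoImplicit false

namespace Pool.Agent.X68.SO

open Filter Topology Equiv

/-- slowly oscillating functions for the finitary ballean of `G` -/
def SlowlyOscillating {G : Type*} [Group G] (f : G → ℝ) : Prop :=
  ∀ F : Set G, F.Finite → ∀ ε : ℝ, 0 < ε →
    ∃ B : Set G, B.Finite ∧ ∀ x, x ∉ B → Metric.diam (f '' ({x} ∪ (fun s => s * x) '' F)) < ε

/-- constant at infinity -/
def ConstantAtInfinity {G : Type*} (f : G → ℝ) : Prop :=
  ∃ c : ℝ, ∀ O ∈ 𝓝 c, (f ⁻¹' O)ᶜ.Finite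

/-- the working form of slow oscillation -/
def W {G : Type*} [Group G] (f : G → ℝ) : Prop :=
  ∀ (s : G) (ε : ℝ), 0 < ε → {x | ε ≤ |f (s * x) - f x|}.Finite

theorem so_W {G : Type*} [Group G] {f : G → ℝ} (hf : SlowlyOscillating f) : W f := by
  intro s ε hε
  obtain ⟨B, hB, h⟩ := hf {s} (Set.finite_singleton s) ε hε
  refine hB.subset ?_
  intro x hx
  by_contra hxB
  have h1 := h x hxB
  have h2 : dist (f (s * x)) (f x) ≤
      Metric.diam (f '' ({x} ∪ (fun s => s * x) '' ({s} : Set G))) := by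
    apply Metric.dist_le_diam_of_mem
    · apply Set.Finite.isBounded
      exact ((Set.finite_singleton x).union ((Set.finite_singleton s).image _)).image f
    · exact ⟨s * x, by simp, rfl⟩
    · exact ⟨x, by simp, rfl⟩
  rw [Real.dist_eq] at h2
  exact absurd (lt_of_le_of_lt h2 h1) (not_lt.mpr hx)

theorem W_seq {G : Type*} [Group G] {f : G → ℝ} (hf : W f) (s : G) {u : ℕ → G}
    (hu : Function.Injective u) {ε : ℝ} (hε : 0 < ε) :
    ∃ N, ∀ n, N ≤ n → |f (s * u n) - f (u n)| < ε := by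
  have h := (hf s ε hε).preimage (f := u) hu.injOn
  obtain ⟨N, hN⟩ := h.bddAbove
  refine ⟨N + 1, fun n hn => ?_⟩
  by_contra hc
  have := hN (show n ∈ u ⁻¹' _ from not_lt.mp hc)
  omega

theorem inj_of_lt {A : Type*} {u : ℕ → A} (h : ∀ m n, m < n → u m ≠ u n) :
    Function.Injective u := by
  intro m n hmn
  rcases lt_trichotomy m n with h1 | h1 | h1
  · exact absurd hmn (h m n h1)
  · exact h1
  · exact absurd hmn.symm (h n m h1)

theorem pigeon {A : Type*} [Uncountable A] (N : A → ℕ) (M : ℕ) :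
    ∃ m, M ≤ m ∧ {k | N k ≤ m}.Infinite := by
  by_contra hc
  have h : ∀ j, {k | N k ≤ M + j}.Finite := fun j => by
    by_contra h
    exact hc ⟨M + j, by omega, h⟩
  have hcount : (Set.univ : Set A).Countable := by
    have : (Set.univ : Set A) = ⋃ j, {k | N k ≤ M + j} := by
      ext k
      simp only [Set.mem_univ, Set.mem_iUnion, Set.mem_setOf_eq, true_iff]
      exact ⟨N k, by omega⟩
    rw [this]
    exact Set.countable_iUnion fun j => (h j).countable
  exact Set.not_countable_univ hcount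

theorem lim_comm {A : Type*} [CommGroup A] [Uncountable A] {φ : A → ℝ} (hφ : W φ) :
    ∃ c, Tendsto φ cofinite (𝓝 c) := by
  have hne : (cofinite : Filter A).NeBot := inferInstance
  rw [← cauchy_map_iff_exists_tendsto, Metric.cauchy_iff]
  refine ⟨inferInstance, fun ε hε => ?_⟩
  by_contra hc
  push Not at hc
  have key : ∀ B : Finset A, ∃ p : A × A, p.1 ∉ B ∧ p.2 ∉ B ∧ ε ≤ |φ p.1 - φ p.2| := by
    intro B
    have hmem : φ '' (B : Set A)ᶜ ∈ map φ cofinite := by
      apply image_mem_map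
      exact B.finite_toSet.compl_mem_cofinite
    obtain ⟨x, hx, y, hy, hxy⟩ := hc _ hmem
    obtain ⟨h, hh, rfl⟩ := hx
    obtain ⟨h', hh', rfl⟩ := hy
    exact ⟨(h, h'), by simpa using hh, by simpa using hh', by rwa [← Real.dist_eq]⟩
  classical
  obtain ⟨u, hu1, hu2⟩ := exists_seq_of_forall_finset_exists
    (fun p : A × A => ε ≤ |φ p.1 - φ p.2|) (fun p q => p.1 ≠ q.1 ∧ p.2 ≠ q.2) (by
      intro s hs
      obtain ⟨p, h1, h2, h3⟩ := key (s.image Prod.fst ∪ s.image Prod.snd)
      refine ⟨p, h3, fun x hx => ⟨?_, ?_⟩⟩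
      · intro h
        apply h1
        rw [← h]
        exact Finset.mem_union_left _ (Finset.mem_image_of_mem _ hx)
      · intro h
        apply h2
        rw [← h]
        exact Finset.mem_union_right _ (Finset.mem_image_of_mem _ hx))
  have i1 : Function.Injective fun n => (u n).1 :=
    inj_of_lt fun m n h => (hu2 m n h).1
  have i2 : Function.Injective fun n => (u n).2 :=
    inj_of_lt fun m n h => (hu2 m n h).2
  have e4 : 0 < ε / 4 := by linarith
  choose N1 hN1 using fun k : A => W_seq hφ k i1 e4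
  choose N2 hN2 using fun k : A => W_seq hφ k i2 e4
  obtain ⟨m, -, hm⟩ := pigeon (fun k => max (N1 k) (N2 k)) 0
  apply hm
  have hfin := hφ ((u m).2 * (u m).1⁻¹) (ε / 2) (by linarith)
  refine (hfin.preimage (f := fun k => k * (u m).1) (mul_left_injective _).injOn).subset ?_
  intro k hk
  simp only [Set.mem_setOf_eq, max_le_iff] at hk
  have h1 := hN1 k m hk.1
  have h2 := hN2 k m hk.2
  have h3 := hu1 m
  have h4 : (u m).2 * (u m).1⁻¹ * (k * (u m).1) = k * (u m).2 := by
    rw [mul_comm k (u m).1, mul_assoc, inv_mul_cancel_left, mul_comm]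
  simp only [Set.mem_preimage, Set.mem_setOf_eq, h4]
  rw [abs_lt] at h1 h2
  rcases le_abs.mp h3 with h3 | h3
  · rw [le_abs]
    right
    linarith [h1.1, h1.2, h2.1, h2.2]
  · rw [le_abs]
    left
    linarith [h1.1, h1.2, h2.1, h2.2]

theorem W_hom {G : Type*} [Group G] {f : G → ℝ} (hf : W f) {A : Type*} [Group A] (Φ : A →* G)
    (hΦ : Function.Injective Φ) (g : G) : W fun a => f (Φ a * g) := by
  intro s ε hε
  refine ((hf (Φ s) ε hε).preimage (f := fun a => Φ a * g) ?_).subset ?_
  · exact ((mul_left_injective g).comp hΦ).injOn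
  · intro a ha
    simpa [mul_assoc] using ha

/-- last step -/
theorem final {G : Type*} [Group G] {f : G → ℝ} (hf : W f) {A : Type*} [Uncountable A]
    (Φ : A → G) (c : ℝ) (h : ∀ g, Tendsto (fun a => f (Φ a * g)) cofinite (𝓝 c)) :
    ConstantAtInfinity f := by
  refine ⟨c, fun O hO => ?_⟩
  obtain ⟨ε, hε, hb⟩ := Metric.mem_nhds_iff.mp hO
  by_contra hinf
  have hinf' : (f ⁻¹' O)ᶜ.Infinite := hinf
  set u : ℕ → G := fun n => (hinf'.natEmbedding _ n : G) with hu
  have hui : Function.Injective u := Subtype.val_injective.comp (hinf'.natEmbedding _).injective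
  have hum : ∀ n, ε ≤ |f (u n) - c| := by
    intro n
    have h1 : u n ∈ (f ⁻¹' O)ᶜ := (hinf'.natEmbedding _ n).2
    by_contra hlt
    push Not at hlt
    apply h1
    apply hb
    rw [Metric.mem_ball, Real.dist_eq]
    exact hlt
  choose N hN using fun a : A => W_seq hf (Φ a) hui (half_pos hε)
  obtain ⟨m, -, hm⟩ := pigeon N 0
  have h1 := Metric.tendsto_nhds.mp (h (u m)) (ε / 2) (half_pos hε)
  rw [eventually_cofinite] at h1
  apply hm
  refine h1.subset ?_
  intro a ha
  simp only [Set.mem_setOf_eq] at ha ⊢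
  have h2 := hN a m ha
  have h3 := hum m
  rw [Real.dist_eq]
  rw [abs_lt] at h2
  rcases le_abs.mp h3 with h3 | h3
  · rw [not_lt, le_abs]
    left
    linarith [h2.1, h2.2]
  · rw [not_lt, le_abs]
    right
    linarith [h2.1, h2.2]

/-- comparison of two limits along commuting families -/
theorem compare {G : Type*} [Group G] {f : G → ℝ} (hf : W f) {A : Type*} [Uncountable A]
    (Φ : A → G) (hΦ : Function.Injective Φ) (s : ℕ → G) (hs : Function.Injective s)
    (hcomm : ∀ n a, s n * Φ a = Φ a * s n) (g : G) (c d : ℝ)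
    (hc : Tendsto (fun a => f (Φ a * g)) cofinite (𝓝 c))
    (hd : Tendsto (fun n => f (s n * g)) atTop (𝓝 d)) : c = d := by
  by_contra hne
  have hpos : 0 < |c - d| := abs_pos.mpr (sub_ne_zero.mpr hne)
  set δ := |c - d| / 5 with hδ
  have hδ0 : 0 < δ := by positivity
  have hui : Function.Injective fun n => s n * g := (mul_left_injective g).comp hs
  choose N hN using fun a : A => W_seq hf (Φ a) hui hδ0
  obtain ⟨M, hM⟩ := Metric.tendsto_atTop.mp hd δ hδ0
  obtain ⟨m, hMm, hm⟩ := pigeon N M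
  have h1 := Metric.tendsto_nhds.mp hc δ hδ0
  rw [eventually_cofinite] at h1
  have h2 := (hf (s m) δ hδ0).preimage (f := fun a => Φ a * g)
    ((mul_left_injective g).comp hΦ).injOn
  obtain ⟨a, ha1, ha2⟩ := (hm.diff (h1.union h2)).nonempty
  simp only [Set.mem_union, Set.mem_setOf_eq, Set.mem_preimage, not_or, not_not, not_le] at ha1 ha2
  have h3 := hN a m ha1
  have h4 := hM m hMm
  have h5 := ha2.1
  have h6 := ha2.2
  have h7 : s m * (Φ a * g) = Φ a * (s m * g) := by rw [← mul_assoc, hcomm, mul_assoc]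
  rw [h7] at h6
  rw [Real.dist_eq] at h4 h5
  have h8 : |c - d| = 5 * δ := by rw [hδ]; ring
  rw [abs_lt] at h3 h4 h5 h6
  rcases abs_choice (c - d) with h9 | h9
  · rw [h9] at h8
    linarith [h3.1, h3.2, h4.1, h4.2, h5.1, h5.2, h6.1, h6.2]
  · rw [h9] at h8
    linarith [h3.1, h3.2, h4.1, h4.2, h5.1, h5.2, h6.1, h6.2]

end Pool.Agent.X68.SO
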