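import Mathlib
import Pool.Agent.X68.SO.Basic

set_option autoImplicit false

namespace Pool.Agent.X68.SO

open Filter Topology Equiv

instance unc : Uncountable (ℕ → Perm Bool) := by
  rw [← not_countable_iff]
  intro h
  obtain ⟨u, hu⟩ := exists_surjective_nat (ℕ → Perm Bool)
  obtain ⟨n, hn⟩ := hu fun n => if u n n = 1 then Equiv.swap true false else 1
  have h1 := congrFun hn n
  by_cases h2 : u n n = 1
  · rw [if_pos h2, h2] at h1
    exact absurd h1 (by decide)
  · rw [if_neg h2] at h1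
    exact h2 h1

instance comm : CommGroup (Perm Bool) :=
  { (inferInstance : Group (Perm Bool)) with mul_comm := by decide }

variable {X : Type*}

abbrev Sg : Type := Σ _ : ℕ, Bool

/-- the permutations of `X` preserving the pairs `e ⟨n, true⟩, e ⟨n, false⟩` and fixing the other
points -/
noncomputable def Φ (e : Sg ↪ X) : (ℕ → Perm Bool) →* Perm X :=
  (Equiv.Perm.viaEmbeddingHom e).comp (Equiv.Perm.sigmaCongrRightHom fun _ : ℕ => Bool)

theorem Φ_inj (e : Sg ↪ X) : Function.Injective (Φ e) :=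
  (Equiv.Perm.viaEmbeddingHom_injective e).comp Equiv.Perm.sigmaCongrRightHom_injective

theorem Φ_apply (e : Sg ↪ X) (S : ℕ → Perm Bool) (n : ℕ) (b : Bool) :
    Φ e S (e ⟨n, b⟩) = e ⟨n, S n b⟩ := by
  unfold Φ
  simp only [MonoidHom.comp_apply, Equiv.Perm.viaEmbeddingHom_apply]
  rw [Equiv.Perm.viaEmbedding_apply]
  rfl

theorem Φ_apply' (e : Sg ↪ X) (S : ℕ → Perm Bool) (x : X) (hx : x ∉ Set.range e) :
    Φ e S x = x := by
  unfold Φ
  simp only [MonoidHom.comp_apply, Equiv.Perm.viaEmbeddingHom_apply]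
  exact Equiv.Perm.viaEmbedding_apply_of_notMem _ _ _ hx

theorem Φ_single (e : Sg ↪ X) [DecidableEq X] (n : ℕ) :
    Φ e (Pi.mulSingle n (Equiv.swap true false)) = Equiv.swap (e ⟨n, true⟩) (e ⟨n, false⟩) := by
  ext x
  by_cases hx : x ∈ Set.range e
  · obtain ⟨⟨k, b⟩, rfl⟩ := hx
    rw [Φ_apply]
    by_cases hk : k = n
    · subst hk
      rw [Pi.mulSingle_eq_same]
      cases b
      · simp
      · simp
    · rw [Pi.mulSingle_eq_of_ne hk, Equiv.swap_apply_of_ne_of_ne]
      · rfl
      · intro h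
        have := e.injective h
        exact hk (congrArg Sigma.fst this)
      · intro h
        have := e.injective h
        exact hk (congrArg Sigma.fst this)
  · rw [Φ_apply' _ _ _ hx, Equiv.swap_apply_of_ne_of_ne]
    · rintro rfl
      exact hx ⟨_, rfl⟩
    · rintro rfl
      exact hx ⟨_, rfl⟩

theorem Φ_conj (e : Sg ↪ X) (t : Perm X) (S : ℕ → Perm Bool) :
    Φ (e.trans t.toEmbedding) S * t = t * Φ e S := by
  ext x
  simp only [Perm.mul_apply]
  by_cases hx : x ∈ Set.range e
  · obtain ⟨⟨k, b⟩, rfl⟩ := hx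
    rw [Φ_apply]
    exact Φ_apply (e.trans t.toEmbedding) S k b
  · rw [Φ_apply' e _ _ hx, Φ_apply']
    rintro ⟨y, hy⟩
    apply hx
    exact ⟨y, t.injective hy⟩

theorem Φ_comm (e e' : Sg ↪ X) (h : ∀ p q, e p ≠ e' q) (S S' : ℕ → Perm Bool) :
    Φ e S * Φ e' S' = Φ e' S' * Φ e S := by
  apply Equiv.Perm.Disjoint.commute
  intro x
  by_cases hx : x ∈ Set.range e
  · right
    apply Φ_apply'
    rintro ⟨q, rfl⟩
    obtain ⟨p, hp⟩ := hx
    exact h p q hp
  · left
    exact Φ_apply' _ _ _ hx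

/-- subsystem -/
def sub (e : Sg ↪ X) (y : ℕ → ℕ) (hy : Function.Injective y) : Sg ↪ X :=
  ⟨fun p => e ⟨y p.1, p.2⟩, by
    rintro ⟨m, b⟩ ⟨n, c⟩ h
    have h1 := e.injective h
    have h2 := hy (congrArg Sigma.fst h1)
    have h2' : m = n := h2
    subst h2'
    simpa using h1⟩

/-- choice of disjoint subsystems -/
theorem choose_sub (e e' : Sg ↪ X) : ∃ (y y' : ℕ → ℕ) (hy : Function.Injective y)
    (hy' : Function.Injective y'), ∀ p q, sub e y hy p ≠ sub e' y' hy' q := by
  classical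
  -- conflict
  set C : ℕ → ℕ → Prop := fun n m => ∃ b c, e ⟨n, b⟩ = e' ⟨m, c⟩ with hC
  have f1 : ∀ n, {m | C n m}.Finite := by
    intro n
    have : {m | C n m} ⊆ ⋃ b : Bool, ⋃ c : Bool, {m | e ⟨n, b⟩ = e' ⟨m, c⟩} := by
      rintro m ⟨b, c, h⟩
      simp only [Set.mem_iUnion]
      exact ⟨b, c, h⟩
    refine Set.Finite.subset ?_ this
    refine Set.finite_iUnion fun b => Set.finite_iUnion fun c => Set.Subsingleton.finite ?_
    intro m hm m' hm'
    have h1 : e' ⟨m, c⟩ = e' ⟨m', c⟩ := hm.symm.trans hm'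
    exact congrArg Sigma.fst (e'.injective h1)
  have f2 : ∀ m, {n | C n m}.Finite := by
    intro m
    have : {n | C n m} ⊆ ⋃ b : Bool, ⋃ c : Bool, {n | e ⟨n, b⟩ = e' ⟨m, c⟩} := by
      rintro n ⟨b, c, h⟩
      simp only [Set.mem_iUnion]
      exact ⟨b, c, h⟩
    refine Set.Finite.subset ?_ this
    refine Set.finite_iUnion fun b => Set.finite_iUnion fun c => Set.Subsingleton.finite ?_
    intro n hn n' hn'
    have h1 : e ⟨n, b⟩ = e ⟨n', b⟩ := Eq.trans hn (Eq.symm hn')
    exact congrArg Sigma.fst (e.injective h1)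
  obtain ⟨u, hu1, hu2⟩ := exists_seq_of_forall_finset_exists
    (fun p : ℕ × ℕ => ¬ C p.1 p.2)
    (fun p q => p.1 ≠ q.1 ∧ p.2 ≠ q.2 ∧ ¬ C p.1 q.2 ∧ ¬ C q.1 p.2) (by
      intro s hs
      have g1 : ((⋃ x ∈ s, {n | C n x.2}) ∪ (s.image Prod.fst : Set ℕ)).Finite :=
        (Set.Finite.biUnion s.finite_toSet fun x _ => f2 x.2).union (Finset.finite_toSet _)
      obtain ⟨n, hn⟩ := g1.exists_notMem
      have g2 : ((⋃ x ∈ s, {m | C x.1 m}) ∪ (s.image Prod.snd : Set ℕ) ∪ {m | C n m}).Finite :=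
        ((Set.Finite.biUnion s.finite_toSet fun x _ => f1 x.1).union (Finset.finite_toSet _)).union
          (f1 n)
      obtain ⟨m, hm⟩ := g2.exists_notMem
      simp only [Set.mem_union, Set.mem_iUnion, not_or, not_exists] at hn hm
      refine ⟨(n, m), hm.2, fun x hx => ⟨?_, ?_, ?_, ?_⟩⟩
      · intro h
        have h' : x.1 = n := h
        exact hn.2 (by rw [← h']; exact Finset.mem_coe.mpr (Finset.mem_image_of_mem _ hx))
      · intro h
        have h' : x.2 = m := h
        exact hm.1.2 (by rw [← h']; exact Finset.mem_coe.mpr (Finset.mem_image_of_mem _ hx))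
      · exact hm.1.1 x hx
      · exact hn.1 x hx)
  refine ⟨fun n => (u n).1, fun n => (u n).2, inj_of_lt fun m n h => (hu2 m n h).1,
    inj_of_lt fun m n h => (hu2 m n h).2.1, ?_⟩
  rintro ⟨i, b⟩ ⟨j, c⟩ h
  have hcon : C (u i).1 (u j).2 := ⟨b, c, h⟩
  rcases lt_trichotomy i j with h1 | h1 | h1
  · exact (hu2 i j h1).2.2.1 hcon
  · subst h1
    exact hu1 i hcon
  · exact (hu2 j i h1).2.2.2 hcon

theorem perm_inf [Infinite X] {f : Perm X → ℝ} (hf : W f) : ConstantAtInfinity f := by
  classical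
  have L : ∀ (e : Sg ↪ X) (g : Perm X), ∃ c, Tendsto (fun S => f (Φ e S * g)) cofinite (𝓝 c) :=
    fun e g => lim_comm (W_hom hf (Φ e) (Φ_inj e) g)
  choose c hc using L
  -- the limit along the transpositions
  have hsi : Function.Injective fun n : ℕ =>
      (Pi.mulSingle n (Equiv.swap true false) : ℕ → Perm Bool) := by
    intro m n h
    by_contra hmn
    have h1 := congrFun h m
    simp only [Pi.mulSingle_eq_same] at h1
    rw [Pi.mulSingle_eq_of_ne hmn] at h1
    exact absurd h1 (by decide)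
  have hs : ∀ (e : Sg ↪ X) (g : Perm X),
      Tendsto (fun n => f (Equiv.swap (e ⟨n, true⟩) (e ⟨n, false⟩) * g)) atTop (𝓝 (c e g)) := by
    intro e g
    have h1 := (hc e g).comp hsi.tendsto_cofinite
    rw [Nat.cofinite_eq_atTop] at h1
    refine h1.congr fun n => ?_
    simp only [Function.comp, Φ_single]
  -- disjoint systems
  have hdis : ∀ (e e' : Sg ↪ X) (g : Perm X), (∀ p q, e p ≠ e' q) → c e' g = c e g := by
    intro e e' g h
    refine compare hf (Φ e') (Φ_inj e')
      (fun n => Φ e (Pi.mulSingle n (Equiv.swap true false))) ((Φ_inj e).comp hsi) ?_ g _ _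
      (hc e' g) ?_
    · intro n a
      exact Φ_comm e e' h _ _
    · refine (hs e g).congr fun n => ?_
      simp only [Φ_single]
  -- subsystems
  have hsub : ∀ (e : Sg ↪ X) (g : Perm X) (y : ℕ → ℕ) (hy : Function.Injective y),
      c (sub e y hy) g = c e g := by
    intro e g y hy
    have h1 := (hs e g).comp hy.nat_tendsto_atTop
    exact tendsto_nhds_unique (hs (sub e y hy) g) h1
  have hall : ∀ (e e' : Sg ↪ X) (g : Perm X), c e g = c e' g := by
    intro e e' g
    obtain ⟨y, y', hy, hy', h⟩ := choose_sub e e'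
    rw [← hsub e g y hy, ← hsub e' g y' hy', hdis _ _ g h]
  have hconj : ∀ (e : Sg ↪ X) (g t : Perm X), c (e.trans t.toEmbedding) (t * g) = c e g := by
    intro e g t
    have h1 := hc (e.trans t.toEmbedding) (t * g)
    have h2 : Tendsto (fun S => f (Φ (e.trans t.toEmbedding) S * (t * g)) - f (Φ e S * g))
        cofinite (𝓝 0) := by
      rw [Metric.tendsto_nhds]
      intro ε hε
      rw [eventually_cofinite]
      refine ((hf t ε hε).preimage (f := fun a => Φ e a * g)
        ((mul_left_injective g).comp (Φ_inj e)).injOn).subset ?_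
      intro S hS
      simp only [Set.mem_preimage]
      have h3 : Φ (e.trans t.toEmbedding) S * (t * g) = t * (Φ e S * g) := by
        rw [← mul_assoc, Φ_conj, mul_assoc]
      have h4 : ¬ dist (f (Φ (e.trans t.toEmbedding) S * (t * g)) - f (Φ e S * g)) 0 < ε := hS
      rw [h3, Real.dist_eq, sub_zero, not_lt] at h4
      exact h4
    have h3 := h2.add (hc e g)
    rw [zero_add] at h3
    refine tendsto_nhds_unique h1 (h3.congr fun S => ?_)
    ring
  obtain ⟨e0⟩ : Nonempty (Sg ↪ X) := by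
    obtain ⟨i⟩ : Nonempty (ℕ ↪ X) := ⟨Infinite.natEmbedding X⟩
    obtain ⟨j⟩ : Nonempty (Sg ≃ ℕ) := inferInstance
    exact ⟨j.toEmbedding.trans i⟩
  have hfin : ∀ g, c e0 g = c e0 1 := by
    intro g
    have h1 := hconj e0 g g⁻¹
    rw [inv_mul_cancel] at h1
    rw [← h1]
    exact hall _ _ _
  exact final hf (Φ e0) (c e0 1) fun g => by
    have := hc e0 g
    rwa [hfin g] at this

theorem perm_main (X : Type*) (f : Perm X → ℝ) (hf : SlowlyOscillating f) :
    ConstantAtInfinity f := by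
  classical
  rcases finite_or_infinite X with h | h
  · have : Finite (Perm X) := inferInstance
    exact ⟨0, fun O _ => Set.toFinite _⟩
  · exact perm_inf (so_W hf)

end Pool.Agent.X68.SO
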